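import Mathlib

namespace Pool.Agent.Results.MP_c8915d_al.NotEquiv

universe u v

/-- An algebra: a nonempty (possibly infinite) universe `A` with finitary basic operations
`op i`, `i : I`, of arity `ar i`. -/
structure Alg where
  A : Type u
  ne : Nonempty A
  I : Type v
  ar : I → ℕ
  op : ∀ i, (Fin (ar i) → A) → A

/-- Every basic operation is idempotent. -/
def Alg.Idem (B : Alg.{u, v}) : Prop := ∀ i x, B.op i (fun _ => x) = x

/-- The `m`-ary term operations: compositions of basic operations and projections. -/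
inductive Alg.IsTerm (B : Alg.{u, v}) (m : ℕ) : ((Fin m → B.A) → B.A) → Prop
  | proj (j : Fin m) : Alg.IsTerm B m (fun a => a j)
  | app (i : B.I) (g : Fin (B.ar i) → (Fin m → B.A) → B.A) (h : ∀ j, Alg.IsTerm B m (g j)) :
      Alg.IsTerm B m (fun a => B.op i (fun j => g j a))

/-- A strong Maltsev condition of height 1: `n` variables, `m` function symbols of arities
`ar j`, and finitely many equations; each side is a symbol `j` with a map `σ` from its argument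
places to the variables, i.e. the minor `d_j(x_{σ 1}, …)`. -/
structure Cond where
  n : ℕ
  m : ℕ
  ar : Fin m → ℕ
  eqs : List ((Σ j : Fin m, Fin (ar j) → Fin n) × (Σ j : Fin m, Fin (ar j) → Fin n))

/-- `B` satisfies `S` on the finite set `F ⊆ A^n`. -/
def SatOn (B : Alg.{u, v}) (S : Cond) (F : Finset (Fin S.n → B.A)) : Prop :=
  ∃ d : ∀ j, (Fin (S.ar j) → B.A) → B.A, (∀ j, B.IsTerm (S.ar j) (d j)) ∧
    ∀ e ∈ S.eqs, ∀ x ∈ F, d e.1.1 (x ∘ e.1.2) = d e.2.1 (x ∘ e.2.2)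

/-- The `k`-local-global property for the class `K` (the size hypothesis `|A|^n ≥ k` says that
`A^n` has a `k`-element subset). -/
def KLGP (K : Alg.{u, v} → Prop) (S : Cond) (k : ℕ) : Prop :=
  ∀ B, K B → (∃ G : Finset (Fin S.n → B.A), G.card = k) →
    (∀ F : Finset (Fin S.n → B.A), F.card = k → SatOn B S F) →
      ∀ F : Finset (Fin S.n → B.A), SatOn B S F

/-- The local-global property for the class `K`. -/
def LGP (K : Alg.{u, v} → Prop) (S : Cond) : Prop := ∃ k, 1 ≤ k ∧ KLGP K S k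

/-- `p(x,y,y) ≈ p(x,x,x)`, `p(x,x,y) ≈ q(x,y,y)`, `q(x,x,y) ≈ q(y,y,y)`. -/
def hm : Cond where
  n := 2
  m := 2
  ar := fun _ => 3
  eqs := [(⟨0, ![0, 1, 1]⟩, ⟨0, ![0, 0, 0]⟩), (⟨0, ![0, 0, 1]⟩, ⟨1, ![0, 1, 1]⟩),
    (⟨1, ![0, 0, 1]⟩, ⟨1, ![1, 1, 1]⟩)]

lemma c3 {α : Type u} (x : Fin 2 → α) (i j k : Fin 2) :
    x ∘ ![i, j, k] = ![x i, x j, x k] := by
  funext t; fin_cases t <;> rfl

lemma satOn_iff (B : Alg.{u, v}) (F : Finset (Fin 2 → B.A)) :
    SatOn B hm F ↔ ∃ p q : (Fin 3 → B.A) → B.A, B.IsTerm 3 p ∧ B.IsTerm 3 q ∧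
      ∀ x ∈ F, p ![x 0, x 1, x 1] = p ![x 0, x 0, x 0] ∧ p ![x 0, x 0, x 1] = q ![x 0, x 1, x 1] ∧
        q ![x 0, x 0, x 1] = q ![x 1, x 1, x 1] := by
  constructor
  · rintro ⟨d, h1, h2⟩
    refine ⟨d (0 : Fin 2), d (1 : Fin 2), h1 (0 : Fin 2), h1 (1 : Fin 2), fun x hx => ⟨?_, ?_, ?_⟩⟩
    · have := h2 _ (List.mem_cons_self) x hx
      rw [← c3, ← c3]; exact this
    · have := h2 _ (List.mem_cons_of_mem _ List.mem_cons_self) x hx
      rw [← c3, ← c3]; exact this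
    · have := h2 _ (List.mem_cons_of_mem _ (List.mem_cons_of_mem _ List.mem_cons_self)) x hx
      rw [← c3, ← c3]; exact this
  · rintro ⟨p, q, hp, hq, h⟩
    refine ⟨fun j : Fin 2 => (![p, q] j : (Fin 3 → B.A) → B.A), ?_, ?_⟩
    · intro j
      fin_cases j
      · exact hp
      · exact hq
    · intro e he x hx
      obtain ⟨h1, h2, h3⟩ := h x hx
      rw [← c3, ← c3] at h1 h2 h3
      rcases List.mem_cons.1 he with rfl | he
      · exact h1
      rcases List.mem_cons.1 he with rfl | he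
      · exact h2
      obtain rfl := List.mem_singleton.1 he
      exact h3

section Pos

variable {B : Alg.{u, v}}

lemma IsTerm.sub {m m' : ℕ} {t : (Fin m → B.A) → B.A} (ht : B.IsTerm m t)
    (g : Fin m → (Fin m' → B.A) → B.A) (hg : ∀ j, B.IsTerm m' (g j)) :
    B.IsTerm m' (fun a => t (fun j => g j a)) := by
  induction ht with
  | proj j => exact hg j
  | app i g' _ ih => exact Alg.IsTerm.app i (fun j a => g' j (fun l => g l a)) ih

lemma IsTerm.idem (hB : B.Idem) {m : ℕ} {t : (Fin m → B.A) → B.A} (ht : B.IsTerm m t) (x : B.A) :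
    t (fun _ => x) = x := by
  induction ht with
  | proj j => rfl
  | app i g _ ih => simp only [ih]; exact hB i x

def T (p : B.A → B.A → B.A → B.A) : Prop := B.IsTerm 3 (fun a => p (a 0) (a 1) (a 2))

lemma T.comp {p q r s : B.A → B.A → B.A → B.A} (hp : T p) (hq : T q) (hr : T r) (hs : T s) :
    T (fun x y z => p (q x y z) (r x y z) (s x y z)) := by
  have := IsTerm.sub hp ![fun a : Fin 3 → B.A => q (a 0) (a 1) (a 2),
    fun a => r (a 0) (a 1) (a 2), fun a => s (a 0) (a 1) (a 2)] (by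
      intro j; fin_cases j
      · exact hq
      · exact hr
      · exact hs)
  exact this

lemma T.x : T (B := B) (fun x _ _ => x) := Alg.IsTerm.proj 0
lemma T.y : T (B := B) (fun _ y _ => y) := Alg.IsTerm.proj 1
lemma T.z : T (B := B) (fun _ _ z => z) := Alg.IsTerm.proj 2

lemma T.idem (hB : B.Idem) {p : B.A → B.A → B.A → B.A} (hp : T p) (x : B.A) : p x x x = x :=
  IsTerm.idem hB hp x

def Sol (S1 S2 S3 : List (B.A × B.A)) : Prop :=
  ∃ p q : B.A → B.A → B.A → B.A, T p ∧ T q ∧ (∀ x ∈ S1, p x.1 x.2 x.2 = x.1) ∧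
    (∀ x ∈ S2, p x.1 x.1 x.2 = q x.1 x.2 x.2) ∧ (∀ x ∈ S3, q x.1 x.1 x.2 = x.2)

lemma stepA (hB : B.Idem) (h0 : ∀ a b c : B.A × B.A, Sol [a] [b] [c]) (a c : B.A × B.A)
    (S2 : List (B.A × B.A)) : Sol [a] S2 [c] := by
  induction S2 with
  | nil =>
    obtain ⟨p, q, hp, hq, h1, -, h3⟩ := h0 a a c
    exact ⟨p, q, hp, hq, h1, by simp, h3⟩
  | cons b S2 ih =>
    obtain ⟨p, q, hp, hq, h1, h2, h3⟩ := ih
    obtain ⟨P, Q, hP, hQ, H1, H2, H3⟩ := h0 a (p b.1 b.1 b.2, q b.1 b.2 b.2) c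
    simp only [List.mem_singleton, forall_eq] at h1 h3 H1 H2 H3
    refine ⟨fun x y z => P (p x y z) (p y y z) (q y z z),
      fun x y z => Q (p x x y) (q x y y) (q x y z),
      hP.comp hp (hp.comp T.y T.y T.z) (hq.comp T.y T.z T.z),
      hQ.comp (hp.comp T.x T.x T.y) (hq.comp T.x T.y T.y) hq, ?_, ?_, ?_⟩
    · simp only [List.mem_singleton, forall_eq, h1, hp.idem hB, hq.idem hB, H1]
    · intro x hx
      rcases List.mem_cons.1 hx with rfl | hx
      · exact H2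
      · simp only [h2 x hx, hP.idem hB, hQ.idem hB]
    · simp only [List.mem_singleton, forall_eq, h3, hp.idem hB, hq.idem hB, H3]

lemma stepB (hB : B.Idem) (h0 : ∀ a b c : B.A × B.A, Sol [a] [b] [c]) (a : B.A × B.A)
    (S2 S3 : List (B.A × B.A)) : Sol [a] S2 S3 := by
  induction S3 with
  | nil =>
    obtain ⟨p, q, hp, hq, h1, h2, -⟩ := stepA hB h0 a a S2
    exact ⟨p, q, hp, hq, h1, h2, by simp⟩
  | cons c S3 ih =>
    obtain ⟨p, q, hp, hq, h1, h2, h3⟩ := ih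
    obtain ⟨P, Q, hP, hQ, H1, H2, H3⟩ := stepA hB h0 a (q c.1 c.1 c.2, c.2)
      (S2.map fun b => (p b.1 b.1 b.2, b.2))
    simp only [List.mem_singleton, forall_eq] at h1 H1 H3
    refine ⟨fun x y z => P (p x y z) (p y y z) z, fun x y z => Q (q x y z) (q y y z) z,
      hP.comp hp (hp.comp T.y T.y T.z) T.z, hQ.comp hq (hq.comp T.y T.y T.z) T.z, ?_, ?_, ?_⟩
    · simp only [List.mem_singleton, forall_eq, h1, hp.idem hB, H1]
    · intro x hx
      have := H2 _ (List.mem_map_of_mem (f := fun b : B.A × B.A => (p b.1 b.1 b.2, b.2)) hx)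
      simp only [← h2 x hx, hq.idem hB]
      exact this
    · intro x hx
      rcases List.mem_cons.1 hx with rfl | hx
      · exact H3
      · simp only [h3 x hx, hQ.idem hB]

lemma stepC (hB : B.Idem) (h0 : ∀ a b c : B.A × B.A, Sol [a] [b] [c])
    (S1 S2 S3 : List (B.A × B.A)) : Sol S1 S2 S3 := by
  induction S1 with
  | nil =>
    obtain ⟨x⟩ := B.ne
    obtain ⟨p, q, hp, hq, -, h2, h3⟩ := stepB hB h0 (x, x) S2 S3
    exact ⟨p, q, hp, hq, by simp, h2, h3⟩
  | cons a S1 ih =>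
    obtain ⟨p, q, hp, hq, h1, h2, h3⟩ := ih
    obtain ⟨P, Q, hP, hQ, H1, H2, H3⟩ := stepB hB h0 (a.1, p a.1 a.2 a.2)
      (S2.map fun b => (b.1, p b.1 b.1 b.2)) S3
    simp only [List.mem_singleton, forall_eq] at H1
    refine ⟨fun x y z => P x (p x y y) (p x y z), fun x y z => Q x (q x y y) (q x y z),
      hP.comp T.x (hp.comp T.x T.y T.y) hp, hQ.comp T.x (hq.comp T.x T.y T.y) hq, ?_, ?_, ?_⟩
    · intro x hx
      rcases List.mem_cons.1 hx with rfl | hx
      · exact H1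
      · simp only [h1 x hx, hP.idem hB]
    · intro x hx
      have := H2 _ (List.mem_map_of_mem (f := fun b : B.A × B.A => (b.1, p b.1 b.1 b.2)) hx)
      simp only [← h2 x hx, hp.idem hB]
      exact this
    · intro x hx
      simp only [h3 x hx, hq.idem hB, H3 x hx]

lemma toT {p : (Fin 3 → B.A) → B.A} (hp : B.IsTerm 3 p) : T (fun x y z => p ![x, y, z]) := by
  have : (fun a : Fin 3 → B.A => p ![a 0, a 1, a 2]) = p := by
    funext a; congr 1; funext t; fin_cases t <;> rfl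
  unfold T
  rw [this]; exact hp

lemma pos : KLGP.{u, v} Alg.Idem hm 3 := by
  classical
  intro B hB hG hk F
  obtain ⟨G, hG⟩ := hG
  have h0 : ∀ a b c : B.A × B.A, Sol [a] [b] [c] := by
    intro a b c
    let E : Finset (Fin 2 → B.A) := {![a.1, a.2], ![b.1, b.2], ![c.1, c.2]}
    have hE : E.card ≤ 3 := Finset.card_le_three
    obtain ⟨F', h1, -, h3⟩ := Finset.exists_subsuperset_card_eq (n := 3)
      (Finset.subset_union_left (s₁ := E) (s₂ := G)) hE
      (hG ▸ Finset.card_le_card Finset.subset_union_right)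
    obtain ⟨p, q, hp, hq, h⟩ := (satOn_iff B F').1 (hk F' h3)
    have ha := (h _ (h1 (by simp [E] : ![a.1, a.2] ∈ E))).1
    have hb := (h _ (h1 (by simp [E] : ![b.1, b.2] ∈ E))).2.1
    have hc := (h _ (h1 (by simp [E] : ![c.1, c.2] ∈ E))).2.2
    refine ⟨_, _, toT hp, toT hq, ?_, ?_, ?_⟩
    · simp only [List.mem_singleton, forall_eq]
      exact ha.trans ((toT hp).idem hB _)
    · simp only [List.mem_singleton, forall_eq]
      exact hb
    · simp only [List.mem_singleton, forall_eq]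
      exact hc.trans ((toT hq).idem hB _)
  let L : List (B.A × B.A) := (Finset.toList (α := Fin 2 → B.A) F).map fun x => (x 0, x 1)
  obtain ⟨p, q, hp, hq, h1, h2, h3⟩ := stepC hB h0 L L L
  refine (satOn_iff B F).2 ⟨_, _, hp, hq, fun x hx => ?_⟩
  have hL : (x 0, x 1) ∈ L := List.mem_map_of_mem (f := fun x : Fin 2 → B.A => (x 0, x 1))
    (Finset.mem_toList.2 hx)
  exact ⟨(h1 _ hL).trans (hp.idem hB _).symm, h2 _ hL, (h3 _ hL).trans (hq.idem hB _).symm⟩

end Pos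

section Neg

def code (L : List (ℕ × ℕ)) (o : Option Bool) (x y : ℕ) : ℕ := Encodable.encode (L, o, x, y) + 1

lemma code_inj {L L' : List (ℕ × ℕ)} {o o' : Option Bool} {x y x' y' : ℕ}
    (h : code L o x y = code L' o' x' y') : L = L' ∧ o = o' ∧ x = x' ∧ y = y' := by
  have := Encodable.encode_injective (Nat.succ_injective h)
  simpa using this

lemma code_lt (L : List (ℕ × ℕ)) (o : Option Bool) (x y : ℕ) :
    x < code L o x y ∧ y < code L o x y := by
  simp only [code, Encodable.encode_prod_val, Encodable.encode_nat]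
  have h1 := Nat.left_le_pair x y
  have h2 := Nat.right_le_pair x y
  have h3 := Nat.right_le_pair (Encodable.encode o) (Nat.pair x y)
  have h4 := Nat.right_le_pair (Encodable.encode L) (Nat.pair (Encodable.encode o) (Nat.pair x y))
  omega

def Step (k : ℕ) (g : List (ℕ × ℕ) × Bool) (w z : ℕ) : Prop :=
  g.1.length ≤ k ∧ ∃ o x y, w = code g.1 o x y ∧ (o = some g.2 ∨ (o = none ∧ (x, y) ∈ g.1)) ∧
    z = cond g.2 y x

lemma Step.fn {k g w z z'} (h : Step k g w z) (h' : Step k g w z') : z = z' := by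
  obtain ⟨-, o, x, y, rfl, -, rfl⟩ := h
  obtain ⟨-, o', x', y', h, -, rfl⟩ := h'
  obtain ⟨-, -, rfl, rfl⟩ := code_inj h
  rfl

lemma Step.lt {k g w z} (h : Step k g w z) : z < w := by
  obtain ⟨-, o, x, y, rfl, -, rfl⟩ := h
  cases g.2
  · exact (code_lt _ _ _ _).1
  · exact (code_lt _ _ _ _).2

def Dec (k : ℕ) : List (List (ℕ × ℕ) × Bool) → ℕ → ℕ → Prop
  | [], w, z => w = z
  | g :: l, w, z => ∃ y, Step k g w y ∧ Dec k l y z

lemma Dec.fn {k : ℕ} : ∀ {l w z z'}, Dec k l w z → Dec k l w z' → z = z'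
  | [], _, _, _, h, h' => h.symm.trans h'
  | _ :: _, _, _, _, ⟨_, h1, h2⟩, ⟨_, h1', h2'⟩ => by
    obtain rfl := h1.fn h1'
    exact Dec.fn h2 h2'

lemma Dec.app {k : ℕ} : ∀ {l l' w y z}, Dec k l w y → Dec k l' y z → Dec k (l ++ l') w z
  | [], _, _, _, _, h, h' => by
    obtain rfl : _ = _ := h
    exact h'
  | _ :: _, _, _, _, _, ⟨y', h1, h2⟩, h' => ⟨y', h1, Dec.app h2 h'⟩

lemma key (k : ℕ) : ∀ (l l' : List (List (ℕ × ℕ) × Bool)) (s : Fin (k + 1) → ℕ) (w : ℕ),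
    Dec k l w 0 → Dec k l' w 1 → (∀ x, Dec k l (s x) x ∧ Dec k l' (s x) x) → False := by
  intro l
  induction l with
  | nil =>
    intro l' s w h h' hs
    cases l' with
    | nil => exact absurd (h.symm.trans h') (by decide)
    | cons g l' =>
      obtain ⟨h1, y, h2, -⟩ := hs 0
      have h1 : s 0 = 0 := h1
      have := h2.lt
      omega
  | cons g l ih =>
    intro l' s w h h' hs
    cases l' with
    | nil =>
      obtain ⟨⟨y, h2, -⟩, h1⟩ := hs 0
      have h1 : s 0 = 0 := h1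
      have := h2.lt
      omega
    | cons g' l' =>
      by_cases hg : g = g'
      · subst hg
        obtain ⟨y, h1, h2⟩ := h
        obtain ⟨y', h1', h2'⟩ := h'
        obtain rfl := h1.fn h1'
        choose t ht1 ht2 using fun x => (hs x).1
        refine ih l' t y h2 h2' fun x => ⟨ht2 x, ?_⟩
        obtain ⟨y', h3, h4⟩ := (hs x).2
        obtain rfl := (ht1 x).fn h3
        exact h4
      · have hlen : g.1.length ≤ k := h.choose_spec.1.1
        have hmem : ∀ x, s x ∈ (g.1.map fun p => code g.1 none p.1 p.2).toFinset := by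
          intro x
          obtain ⟨⟨_, ⟨-, o, a, b, e1, e2, -⟩, -⟩, ⟨_, ⟨-, o', a', b', e1', e2', -⟩, -⟩⟩ := hs x
          obtain ⟨f1, rfl, rfl, rfl⟩ := code_inj (e1.symm.trans e1')
          rcases e2 with e2 | ⟨rfl, e2⟩
          · rcases e2' with e2' | ⟨e2', -⟩
            · exact absurd (Prod.ext f1 (Option.some_injective _ (e2.symm.trans e2'))) hg
            · rw [e2] at e2'; cases e2'
          · rw [List.mem_toFinset, e1]
            exact List.mem_map_of_mem (f := fun p : ℕ × ℕ => code g.1 none p.1 p.2) e2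
        have hinj : Function.Injective s := by
          intro x x' e
          have h1 := (hs x).1
          rw [e] at h1
          exact Fin.ext (h1.fn (hs x').1)
        have h1 := Finset.card_le_card_of_injOn (s := Finset.univ) s (fun x _ => hmem x)
          hinj.injOn
        have h2 := List.toFinset_card_le (g.1.map fun p => code g.1 none p.1 p.2)
        simp only [Finset.card_univ, Fintype.card_fin, List.length_map] at h1 h2
        omega

def Good (k m : ℕ) (f : (Fin m → ℕ) → ℕ) : Prop := ∃ i l, ∀ a, Dec k l (f a) (a i)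

def alg (k : ℕ) : Alg.{u, v} where
  A := ULift.{u} ℕ
  ne := ⟨⟨0⟩⟩
  I := ULift.{v} (Σ m : ℕ, {f : (Fin m → ℕ) → ℕ // Good k m f})
  ar := fun i => i.down.1
  op := fun i a => ⟨i.down.2.1 fun j => (a j).down⟩

lemma term_good {k m : ℕ} {t : (Fin m → (alg.{u, v} k).A) → (alg.{u, v} k).A}
    (ht : (alg.{u, v} k).IsTerm m t) :
    ∃ i l, ∀ a, Dec k l (ULift.down (t a)) (ULift.down (a i)) := by
  induction ht with
  | proj j => exact ⟨j, [], fun _ => rfl⟩
  | app i g _ ih =>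
    obtain ⟨j, l, h⟩ := i.down.2.2
    obtain ⟨j', l', h'⟩ := ih j
    exact ⟨j', l ++ l', fun a => (h _).app (h' a)⟩

lemma good_term {k m : ℕ} {f : (Fin m → ℕ) → ℕ} (hf : Good k m f) :
    (alg.{u, v} k).IsTerm m (fun a => ULift.up (f fun j => (a j).down)) :=
  Alg.IsTerm.app (B := alg.{u, v} k) ⟨⟨m, f, hf⟩⟩ (fun j a => a j) fun j => Alg.IsTerm.proj j

def fP (L : List (ℕ × ℕ)) (x y z : ℕ) : ℕ :=
  if x = y ∧ (x, z) ∈ L then code L none x z else
    if (x, x) ∈ L then code L none x x else code L (some false) x x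

def fQ (L : List (ℕ × ℕ)) (x y z : ℕ) : ℕ :=
  if y = z ∧ (x, z) ∈ L then code L none x z else
    if (z, z) ∈ L then code L none z z else code L (some true) z z

lemma loc (k : ℕ) (F : Finset (Fin 2 → ULift.{u} ℕ)) (hF : F.card = k) :
    SatOn (alg.{u, v} k) hm F := by
  let L : List (ℕ × ℕ) := F.toList.map fun x => ((x 0).down, (x 1).down)
  have hL : L.length ≤ k := by simp [L, hF]
  have gP : Good k 3 fun a => fP L (a 0) (a 1) (a 2) := by
    refine ⟨0, [(L, false)], fun a => ⟨a 0, ⟨hL, ?_⟩, rfl⟩⟩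
    beta_reduce
    unfold fP
    split_ifs with h1 h2
    · exact ⟨_, _, _, rfl, Or.inr ⟨rfl, h1.2⟩, rfl⟩
    · exact ⟨_, _, _, rfl, Or.inr ⟨rfl, h2⟩, rfl⟩
    · exact ⟨_, _, _, rfl, Or.inl rfl, rfl⟩
  have gQ : Good k 3 fun a => fQ L (a 0) (a 1) (a 2) := by
    refine ⟨2, [(L, true)], fun a => ⟨a 2, ⟨hL, ?_⟩, rfl⟩⟩
    beta_reduce
    unfold fQ
    split_ifs with h1 h2
    · exact ⟨_, _, _, rfl, Or.inr ⟨rfl, h1.2⟩, rfl⟩
    · exact ⟨_, _, _, rfl, Or.inr ⟨rfl, h2⟩, rfl⟩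
    · exact ⟨_, _, _, rfl, Or.inl rfl, rfl⟩
  refine (satOn_iff (alg.{u, v} k) F).2 ⟨_, _, good_term gP, good_term gQ, fun x hx => ?_⟩
  have hx' : ((x 0).down, (x 1).down) ∈ L :=
    List.mem_map_of_mem (f := fun x : Fin 2 → ULift.{u} ℕ => ((x 0).down, (x 1).down))
      (Finset.mem_toList.2 hx)
  refine ⟨congrArg ULift.up ?_, congrArg ULift.up ?_, congrArg ULift.up ?_⟩
  · change fP L (x 0).down (x 1).down (x 1).down = fP L (x 0).down (x 0).down (x 0).down
    by_cases h : (x 0).down = (x 1).down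
    · rw [← h]
    · by_cases h' : ((x 0).down, (x 0).down) ∈ L <;> simp [fP, h, h']
  · change fP L (x 0).down (x 0).down (x 1).down = fQ L (x 0).down (x 1).down (x 1).down
    simp [fP, fQ, hx']
  · change fQ L (x 0).down (x 0).down (x 1).down = fQ L (x 1).down (x 1).down (x 1).down
    by_cases h : (x 0).down = (x 1).down
    · rw [← h]
    · by_cases h' : ((x 1).down, (x 1).down) ∈ L <;> simp [fQ, h, h']

lemma neg (k : ℕ) : ¬ KLGP.{u, v} (fun _ => True) hm k := by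
  classical
  intro h
  let F : Finset (Fin 2 → ULift.{u} ℕ) := insert ![⟨0⟩, ⟨1⟩]
    (Finset.univ.image fun x : Fin (k + 1) => ![⟨x⟩, ⟨x⟩])
  obtain ⟨p, q, ⟨i, l, hp⟩, ⟨i', l', hq⟩, H⟩ : ∃ p q : (Fin 3 → ULift.{u} ℕ) → ULift.{u} ℕ,
      (∃ i l, ∀ a, Dec k l (p a).down (a i).down) ∧ (∃ i l, ∀ a, Dec k l (q a).down (a i).down) ∧
      ∀ x ∈ F, p ![x 0, x 1, x 1] = p ![x 0, x 0, x 0] ∧ p ![x 0, x 0, x 1] = q ![x 0, x 1, x 1] ∧
        q ![x 0, x 0, x 1] = q ![x 1, x 1, x 1] := by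
    obtain ⟨p, q, hp, hq, H⟩ := (satOn_iff (alg.{u, v} k) F).1 (h (alg.{u, v} k) trivial
      (Infinite.exists_subset_card_eq (Fin 2 → ULift.{u} ℕ) k) (loc k) F)
    exact ⟨p, q, term_good hp, term_good hq, H⟩
  obtain ⟨h1, h2, h3⟩ := H _ (Finset.mem_insert_self _ _)
  have e1 := hp ![⟨0⟩, ⟨1⟩, ⟨1⟩]
  have e2 := hp ![⟨0⟩, ⟨0⟩, ⟨0⟩]
  have e3 := hq ![⟨0⟩, ⟨0⟩, ⟨1⟩]
  have e4 := hq ![⟨1⟩, ⟨1⟩, ⟨1⟩]
  have h1 : p ![⟨0⟩, ⟨1⟩, ⟨1⟩] = p ![⟨0⟩, ⟨0⟩, ⟨0⟩] := h1
  have h2 : p ![⟨0⟩, ⟨0⟩, ⟨1⟩] = q ![⟨0⟩, ⟨1⟩, ⟨1⟩] := h2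
  have h3 : q ![⟨0⟩, ⟨0⟩, ⟨1⟩] = q ![⟨1⟩, ⟨1⟩, ⟨1⟩] := h3
  rw [h1] at e1
  rw [h3] at e3
  have i0 : i = 0 := by
    have := e1.fn e2
    fin_cases i
    · rfl
    · simp at this
    · simp at this
  have i2 : i' = 2 := by
    have := e3.fn e4
    fin_cases i'
    · simp at this
    · simp at this
    · rfl
  subst i0 i2
  refine key k l l' (fun x => (p ![⟨x⟩, ⟨x⟩, ⟨x⟩]).down) (p ![⟨0⟩, ⟨0⟩, ⟨1⟩]).down (hp _) ?_
    fun x => ⟨hp _, ?_⟩
  · rw [h2]; exact hq _
  · have h4 : p ![⟨x⟩, ⟨x⟩, ⟨x⟩] = q ![⟨x⟩, ⟨x⟩, ⟨x⟩] :=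
      (H ![⟨x⟩, ⟨x⟩] (Finset.mem_insert_of_mem
        (Finset.mem_image.2 ⟨x, Finset.mem_univ _, rfl⟩))).2.1
    rw [h4]; exact hq _

end Neg

theorem result :
    LGP.{u, v} Alg.Idem hm ∧ ¬ LGP.{u, v} (fun _ => True) hm :=
  ⟨⟨3, by norm_num, pos⟩, fun ⟨k, _, h⟩ => neg k h⟩

end Pool.Agent.Results.MP_c8915d_al.NotEquiv
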